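import Pool.Agent.W290.MF.Level
import Pool.Agent.W552.FrobMain

/-!
# Frobenius endomorphisms of products over a common field
-/

open CategoryTheory AlgebraicGeometry Polynomial

universe u v w

namespace Pool.Agent.W290.MF

open Pool.Agent.H914 Pool.Agent.W534 Pool.Agent.W521.Frob VarClass Obj WeilCohomology
  Pool.Agent.H281R3.HT Pool.Agent.W536.RR Pool.Agent.W458.MF

variable {k : Type u} [Field k] {𝒱 : VarClass k} {ops : CycleOps 𝒱}
  {W : WeilCohomology.{u, v} ops} {p : ℕ} {Φ : FrobSystem W p}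

lemma map_comm_iter {X Z : 𝒱.Obj} (F : Z ⟶ Z) (f : X ⟶ X) (g : Z ⟶ X)
    (h : ∀ y : W.H X, W.map F (W.map g y) = W.map g (W.map f y)) (r : ℕ) (y : W.H X) :
    W.map (W534.iter F r) (W.map g y) = W.map g (W.map (W534.iter f r) y) := by
  rw [W534.map_iter, W534.map_iter]
  induction r generalizing y with
  | zero => rfl
  | succ r ih => rw [Function.iterate_succ_apply, Function.iterate_succ_apply, h, ih]

/-- Some power of the product of the Frobenius endomorphisms is a power of the Frobenius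
endomorphism of the product. -/
lemma nest_level (Φ : FrobSystem W p) (ops : CycleOps 𝒱) {M : ℕ} (hM : 0 < M) : ∀ (n : ℕ)
    (P : Fin (n + 1) → Polarized 𝒱) (s : Fin (n + 1) → ℕ) (_ : ∀ a, Φ.e (P a).X * s a = M),
    ∃ A r, 0 < A ∧ 0 < r ∧ A * Φ.e (W552.nest ops n P).X = r * M ∧
      ∀ c : W.H (W552.nest ops n P).X,
        W.map (W534.iter (Φ.Fr (W552.nest ops n P).X) A) c = W.map (W534.iter
          (W552.nestMap ops n P (fun a => W534.iter (Φ.Fr (P a).X) (s a))) r) c := by
  intro n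
  induction n with
  | zero =>
    intro P s hs
    refine ⟨s 0, 1, ?_, one_pos, ?_, ?_⟩
    · refine Nat.pos_of_ne_zero ?_
      intro h0
      have := hs 0
      rw [h0, mul_zero] at this
      omega
    · rw [one_mul, ← hs 0, mul_comm]
      rfl
    · intro c
      rw [W534.map_iter (W552.nestMap ops 0 P _), Function.iterate_one]
      rfl
  | succ n ih =>
    intro P s hs
    obtain ⟨A', r', hA', hr', he', h'⟩ := ih (fun i => P i.succ) (fun i => s i.succ)
      (fun i => hs i.succ)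
    set Z' := (W552.nest ops n (fun i => P i.succ)).X with hZ'
    set X := (P 0).X with hX
    set F' := W552.nestMap ops n (fun i => P i.succ)
      (fun a => W534.iter (Φ.Fr (P a.succ).X) (s a.succ)) with hF'
    obtain ⟨a₁, b₁, ha₁, hb₁, hab₁, h₁⟩ := frob_comm Φ (fst X Z')
    obtain ⟨a₂, b₂, ha₂, hb₂, hab₂, h₂⟩ := frob_comm Φ (snd X Z')
    change ∃ A r, 0 < A ∧ 0 < r ∧ A * Φ.e (X.prod Z') = r * M ∧ ∀ c : W.H (X.prod Z'),
        W.map (W534.iter (Φ.Fr (X.prod Z')) A) c = W.map (W534.iter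
          (Obj.lift (fst X Z' ≫ W534.iter (Φ.Fr X) (s 0)) (snd X Z' ≫ F')) r) c
    set F := Obj.lift (fst X Z' ≫ W534.iter (Φ.Fr X) (s 0)) (snd X Z' ≫ F') with hF
    have heZ := Φ.e_pos (X.prod Z')
    have heX := Φ.e_pos X
    have heZ' := Φ.e_pos Z'
    have hs0 : 0 < s 0 := by
      refine Nat.pos_of_ne_zero ?_
      intro h0
      have := hs 0
      rw [h0, mul_zero] at this
      omega
    refine ⟨a₁ * a₂ * M * r', r' * (a₁ * a₂ * Φ.e (X.prod Z')), by positivity, by positivity,
      by ring, ?_⟩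
    have hF1 : ∀ y : W.H X, W.map F (W.map (fst X Z') y) =
        W.map (fst X Z') (W.map (W534.iter (Φ.Fr X) (s 0)) y) := by
      intro y
      rw [← W.map_comp, hF, Obj.lift_fst, W.map_comp]
    have hF2 : ∀ y : W.H Z', W.map F (W.map (snd X Z') y) =
        W.map (snd X Z') (W.map F' y) := by
      intro y
      rw [← W.map_comp, hF, Obj.lift_snd, W.map_comp]
    set r := r' * (a₁ * a₂ * Φ.e (X.prod Z')) with hr
    have e1 : b₁ * (a₂ * M * r') = s 0 * r := by
      apply Nat.eq_of_mul_eq_mul_right heX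
      calc b₁ * (a₂ * M * r') * Φ.e X = (b₁ * Φ.e X) * (a₂ * M * r') := by ring
        _ = a₁ * Φ.e (X.prod Z') * (a₂ * (Φ.e X * s 0) * r') := by rw [← hab₁, ← hs 0]
        _ = s 0 * r * Φ.e X := by rw [hr]; ring
    have e2 : b₂ * (a₁ * M * r') = A' * (a₁ * a₂ * Φ.e (X.prod Z')) := by
      apply Nat.eq_of_mul_eq_mul_right heZ'
      calc b₂ * (a₁ * M * r') * Φ.e Z' = (b₂ * Φ.e Z') * (a₁ * (r' * M)) := by ring
        _ = (a₂ * Φ.e (X.prod Z')) * (a₁ * (A' * Φ.e Z')) := by rw [← hab₂, ← he']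
        _ = A' * (a₁ * a₂ * Φ.e (X.prod Z')) * Φ.e Z' := by ring
    intro c
    refine W.kunneth_induction (p := fun c =>
      W.map (W534.iter (Φ.Fr (X.prod Z')) (a₁ * a₂ * M * r')) c = W.map (W534.iter F r) c)
      ?_ ?_ c
    · intro a b ha hb
      rw [map_add, map_add, ha, hb]
    · intro i j x _ y _
      rw [map_mul, map_mul]
      congr 1
      · rw [map_comm_iter F _ _ hF1, W534.map_iter (W534.iter (Φ.Fr X) (s 0)) r,
          ← W534.map_iter_mul, ← e1, show a₁ * a₂ * M * r' = a₁ * (a₂ * M * r') by ring]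
        exact h₁ _ _
      · rw [map_comm_iter F _ _ hF2, show a₁ * a₂ * M * r' = a₂ * (a₁ * M * r') by ring]
        refine (h₂ _ _).trans ?_
        rw [e2, W534.map_iter_mul, hr, W534.map_iter_mul]
        congr 2
        exact funext h'

end Pool.Agent.W290.MF
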