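import Pool.Agent.W290.MF.Irr
import Pool.Agent.W552.IrrConv

/-!
# The standard conjectures of Hodge type and D for all products
-/

open CategoryTheory AlgebraicGeometry Polynomial

universe u v w

namespace Pool.Agent.W290.MF

open Pool.Agent.H914 Pool.Agent.W534 Pool.Agent.W521.Frob VarClass Obj WeilCohomology
  Pool.Agent.H281R3.HT Pool.Agent.W536.RR Pool.Agent.W458.MF

variable {k : Type u} [Field k] {𝒱 : VarClass k} {ops : CycleOps 𝒱}
  {W : WeilCohomology.{u, v} ops} {p : ℕ} {Φ : FrobSystem W p}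

/-- The degree of a homogeneous algebraic class is even. -/
lemma even_of_alg {Z : 𝒱.Obj} {d : ℕ} {c : W.H Z} (hc : c ∈ algSpan W Z) (hd : c ∈ W.gr Z d)
    (h0 : c ≠ 0) : ∃ j, d = 2 * j := by
  by_contra hcon
  apply h0
  rw [← proj_same (W.isInternal Z) hd]
  refine algSpan_induction (p := fun c => H914.proj (W.isInternal Z) d c = 0) ?_ ?_ ?_ ?_ hc
  · rw [map_zero]
  · intro a b ha hb
    rw [map_add, ha, hb, add_zero]
  · intro r a ha
    rw [map_smul, ha, smul_zero]
  · intro j z hz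
    exact proj_ne _ (W.cl_mem hz) (fun h => hcon ⟨j, h.symm⟩)

/-- The Riemann hypothesis for powers. -/
lemma rh_iter {X : 𝒱.Obj} {M s : ℕ} (hs : Φ.e X * s = M)
    (h : RiemannHypothesis W X (Φ.Fr X) (card Φ X 1)) :
    RiemannHypothesis W X (W534.iter (Φ.Fr X) s) (p ^ M) := by
  intro i
  obtain ⟨Q, h0, h1, h2⟩ := riemann_pow h s i
  refine ⟨Q, h0, ?_, ?_⟩
  · intro a ha
    have h3 := h1 a ha
    have e : (W.map (H914.iter (Φ.Fr X) s)).toLinearMap =
        (W.map (W534.iter (Φ.Fr X) s)).toLinearMap := by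
      apply LinearMap.ext
      intro x
      change W.map (H914.iter (Φ.Fr X) s) x = W.map (W534.iter (Φ.Fr X) s) x
      rw [H914.map_iter, W534.map_iter, Module.End.pow_apply]
      rfl
    rw [e, ev_apply] at h3
    exact h3
  · intro z hz
    rw [h2 z hz, card, ← pow_mul, mul_one, hs]

section Nest

/-- The Frobenius endomorphism on the cycles on the products. -/
lemma frob_nest {M : ℕ} (hM : 0 < M) (n : ℕ) (P : Fin (n + 1) → Polarized 𝒱)
    (s : Fin (n + 1) → ℕ) (hs : ∀ a, Φ.e (P a).X * s a = M) :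
    FrobeniusOnCycles W (W552.nest ops n P).X
      (W552.nestMap ops n P (fun a => W534.iter (Φ.Fr (P a).X) (s a))) (p ^ M) := by
  obtain ⟨A, r, hA, hr, he, h⟩ := nest_level Φ ops hM n P s hs
  set Z := (W552.nest ops n P).X
  set F := W552.nestMap ops n P (fun a => W534.iter (Φ.Fr (P a).X) (s a))
  intro j z hz
  obtain ⟨c, hc, h1⟩ := Φ.cyc hz
  refine ⟨r * c, Nat.mul_pos hr hc, ?_⟩
  rw [cl_pull_iter]
  have e1 : ((W.map F).toLinearMap ^ (r * c)) (W.cl Z z) =
      W.map (W534.iter (Φ.Fr Z) (A * c)) (W.cl Z z) := by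
    have e2 : (⇑(W.map (W534.iter (Φ.Fr Z) A)) : W.H Z → W.H Z) = W.map (W534.iter F r) :=
      funext h
    rw [W534.map_iter_mul, e2, ← W534.map_iter_mul, W534.map_iter, Module.End.pow_apply]
    rfl
  rw [e1, frob_mul' Φ h1 A, Nat.cast_pow, ← pow_mul]
  congr 2
  calc Φ.e Z * (A * c) * j = (A * Φ.e Z) * (c * j) := by ring
    _ = M * (r * c * j) := by rw [he]; ring

end Nest

section Main

variable {Y : 𝒱.Obj} {I : Type} {σ : W.K →+* ℂ} {P : I → Piece W Y} {m : ℕ} {R : ℤ[X]}

/-- The eigenvalues on the cohomology. -/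
lemma eig_cases [IsAlgClosed W.K] {i : I} {D : (P i).obj.Cycles} {M s t b : ℕ}
    (H : GSetup Φ σ P m R) (hL : Lvl Φ (P i) D m M s t b)
    (hY : ∀ x : W.H Y, x ∈ algSpan W Y)
    (hE : ∀ x, IsExt p (P i) m x → x ∈ algSpan W (P i).obj) {α : W.K} {d : ℕ}
    (h : W552.HasEig (W.map (W534.iter (Φ.Fr (P i).obj) s)) (fun x => x ∈ W.gr (P i).obj d) α) :
    W552.IsTateRel (p ^ M) ({(d, α)} : Multiset (ℕ × W.K)) ∨
      ∃ lam : W.K, aeval lam (weil ((P i).Q p m) (P i).pol) = 0 ∧
        (d, α) = ((P i).obj.dim, lam ^ t) := by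
  obtain ⟨y, hy, hy0, hya⟩ := h
  have hya' : frob Φ (P i).obj s y = α • y := hya
  rcases cases_gen H hL hY hE (eig_mem_gen hya') hy0 with ⟨lam, x, hx, hα, c, hc⟩ | ⟨hyA, -⟩
  · right
    refine ⟨lam, hx.root, ?_⟩
    rw [hα]
    congr 1
    by_contra hne
    apply hy0
    have h6 : y ∈ W.gr (P i).obj (P i).obj.dim := by
      rw [hc]
      exact Submodule.smul_mem _ _ (H.sub_le i hx.mem)
    rw [← proj_same (W.isInternal (P i).obj) hy]
    exact proj_ne _ h6 (Ne.symm hne)
  · left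
    obtain ⟨j, rfl⟩ := even_of_alg hyA hy hy0
    have h1 := spanCycles_of_alg hyA hy
    obtain ⟨r, hr, h2⟩ := exists_span_eig Φ (P i).obj j
    have h3 := span_eig_mul' Φ (h2 y h1) s
    have h4 : frob Φ (P i).obj (s * r) y = α ^ r • y := by
      rw [frob_mul_eq, Module.End.pow_apply]
      exact W534.iterate_eig (fun a x => map_smul (frob Φ (P i).obj s) a x) hya' r
    rw [h4, card_pow] at h3
    refine ⟨j, ?_, r, hr, ?_⟩
    · simp
    · have h5 := smul_left_injective W.K hy0 h3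
      rw [Multiset.map_singleton, Multiset.prod_singleton]
      change α ^ r = _
      rw [h5, Nat.cast_pow, ← pow_mul, ← hL.se]
      congr 1
      ring

/-- **HODGE.** -/
theorem hodge : St_HODGE.{u, v} := by
  intro k _ 𝒱 ops W _ Y p Φ σ I _ P m R H hY hE hT D hD hdeg hHL hB hRH hH n a
  classical
  obtain ⟨M, hM, hlev⟩ := exists_common (fun i => H.frob i) hD
  choose s t b hL using hlev
  -- all `t i` are equal
  have ht : ∀ i j, t i = t j := fun i j =>
    Nat.eq_of_mul_eq_mul_right H.hm ((hL i).tm.trans (hL j).tm.symm)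
  set P' : I → Polarized 𝒱 := fun i => ⟨(P i).obj, D i⟩ with hP'
  set f : ∀ i, (P' i).X ⟶ (P' i).X := fun i => W534.iter (Φ.Fr (P i).obj) (s i) with hf
  have hfam : W552.IsFrobFamily W P' f (p ^ M) := {
    q_ne := pow_ne_zero _ Φ.p_pos.ne'
    div := hD
    deg := hdeg
    hardLef := hHL
    lef := hB
    rh := fun i => rh_iter (hL i).se (hRH i)
    frob := fun n a => frob_nest hM n (fun i => P' (a i)) (fun i => s (a i))
      (fun i => (hL (a i)).se) }
  have hirr : ∀ i, W552.IrrFrob W (P' i) (f i) (p ^ M) := fun i =>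
    irrFrob H (hL i) hY (hE i)
  have hqC : ((p ^ M : ℕ) : W.K) ≠ 0 := by
    rw [Nat.cast_pow]
    exact pow_ne_zero _ (cast_p_ne Φ)
  have hQt : ∀ i, (P i).Q p m ^ t i = (p ^ M) ^ (P i).obj.dim := by
    intro i
    rw [Piece.Q, ← pow_mul, ← pow_mul, ← (hL i).tm]
    congr 1
    ring
  have hsep : W552.SeparatedSpectrum W P' f (p ^ M) := by
    intro i i' j j' a b n α β hn hα hβ hjj hαβ
    obtain ⟨x, hx, hx0, hxα⟩ := hα
    obtain ⟨y, hy, hy0, hyβ⟩ := hβ
    have hgx : W552.GenEig (W.map (f i)) α x := ⟨1, by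
      rw [pow_one, LinearMap.sub_apply, LinearMap.smul_apply, Module.End.one_apply, sub_eq_zero]
      exact hxα⟩
    have hgy : W552.GenEig (W.map (f i')) β y := ⟨1, by
      rw [pow_one, LinearMap.sub_apply, LinearMap.smul_apply, Module.End.one_apply, sub_eq_zero]
      exact hyβ⟩
    obtain ⟨lam, v, hv, hα', hj, -⟩ := pt_eig H (hL i) hY (hE i) hx0 hx hgx
    obtain ⟨mu, v', hv', hβ', hj', -⟩ := pt_eig H (hL i') hY (hE i') hy0 hy hgy
    -- the conjugate root
    have hr1 := aeval_sigma σ hv.root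
    have hr2 := aeval_sigma σ hv'.root
    have hmu0 : σ mu ≠ 0 := root_ne_zero (Q_pos H i').ne' (H.monic i') hr2
    have hr3 := root_conj (Q_pos H i').ne' (H.monic i') hr2
    have hpR : (p : ℂ) ∈ Submonoid.closure {z : ℂ | aeval z R = 0} := by
      refine Submonoid.subset_closure ?_
      exact H.hRp
    have hkey := bal_two (Q_pos H) H.monic H.bal H.sep i i' (a := t i * n)
      (Nat.mul_pos (hL i).t_pos (by omega)) hr1 hr3
      (ν := ((p : ℂ) ^ (M * (n * a)))) (Submonoid.pow_mem _ hpR _)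
      (c := (P i').Q p m ^ (t i * n) * p ^ (M * (n * b)))
      (Nat.mul_pos (pow_pos (Q_pos H i') _) (pow_pos Φ.p_pos _)) (by
        have e1 : σ lam ^ (t i * n) * (p : ℂ) ^ (M * (n * a)) =
            σ mu ^ (t i * n) * (p : ℂ) ^ (M * (n * b)) := by
          have e2 := congrArg σ hαβ
          rw [hα', hβ', map_mul, map_mul, map_pow, map_pow, map_pow, map_pow, map_pow, map_pow,
            map_natCast, ← pow_mul, ← pow_mul, ht i' i, Nat.cast_pow, ← pow_mul, ← pow_mul] at e2
          exact e2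
        rw [div_pow, mul_right_comm, e1, Nat.cast_mul, Nat.cast_pow, Nat.cast_pow]
        field_simp)
    obtain ⟨hii, h2⟩ := hkey
    subst hii
    have h3 : σ lam = σ mu := by
      have hQ0 : (((P i).Q p m : ℕ) : ℂ) ≠ 0 := Nat.cast_ne_zero.2 (Q_pos H i).ne'
      rw [mul_div_assoc', div_eq_iff hmu0, mul_comm] at h2
      exact mul_left_cancel₀ hQ0 h2
    have h4 : lam = mu := σ.injective h3
    exact ⟨rfl, hj.trans hj'.symm, by rw [hα', hβ', h4]⟩
  have hne : W552.NoExoticSpectrum W P' f (p ^ M) := by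
    intro ms hms hr
    by_cases hI : Nonempty I
    · obtain ⟨i₀⟩ := hI
      refine noExotic_of_bal σ (Q_pos H) H.monic H.bal H.sep (hL i₀).t_pos
        (pow_pos Φ.p_pos M) (fun i => (P i).obj.dim) ?_ ms.card ms le_rfl ?_ hr
      · intro i
        rw [ht i₀ i]
        exact hQt i
      · intro x hx
        obtain ⟨i, hi⟩ := hms x hx
        rcases eig_cases H (hL i) hY (hE i) hi with h | ⟨lam, h1, h2⟩
        · exact Or.inl h
        · refine Or.inr ⟨i, lam, h1, ?_⟩
          rw [ht i₀ i]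
          exact h2
    · have : ms = 0 := by
        by_contra h0
        obtain ⟨x, hx⟩ := Multiset.exists_mem_of_ne_zero h0
        obtain ⟨i, -⟩ := hms x hx
        exact hI ⟨i⟩
      subst this
      exact W552.PairGenerated.zero
  have htate : ∀ i, W552.TateConj W (P' i) (f i) (p ^ M) := by
    intro i j c hc hcm
    obtain ⟨m', hm', h1⟩ := hcm
    have h2 : c ∈ genTate Φ (P i).obj (s i * m') j := by
      refine mem_genTate_of_eig Φ hc ?_
      rw [frob_apply, W534.map_iter_mul]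
      refine h1.trans ?_
      rw [card_pow, Nat.cast_pow, ← pow_mul, ← (hL i).se]
      congr 2
      ring
    have h3 := hT i j (s i * m') (Nat.mul_pos (hL i).s_pos hm') h2
    refine Submodule.span_mono ?_ h3
    rintro _ ⟨q, -, z, hz, rfl⟩
    exact ⟨q, z, hz, rfl⟩
  exact ((W552.irr_main hfam hirr hsep).2 htate hne).1 hH n a

end Main

end Pool.Agent.W290.MF
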