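import Pool.Agent.W290.MF.Fam

/-!
# The hypotheses of the theorem on irreducible eigenspaces
-/

open CategoryTheory AlgebraicGeometry Polynomial

universe u v w

namespace Pool.Agent.W290.MF

open Pool.Agent.H914 Pool.Agent.W534 Pool.Agent.W521.Frob VarClass Obj WeilCohomology
  Pool.Agent.H281R3.HT Pool.Agent.W536.RR Pool.Agent.W458.MF

variable {k : Type u} [Field k] {𝒱 : VarClass k} {ops : CycleOps 𝒱}
  {W : WeilCohomology.{u, v} ops} {p : ℕ} {Φ : FrobSystem W p}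

section Group

variable {X : 𝒱.Obj}

/-- Push-forward along an endomorphism is algebraic. -/
lemma rop_push (φ : X ⟶ X) : ROp W X 0 (W.push φ) := by
  refine ⟨fun W => W.push φ, Or.inl ⟨X.dim, by simp,
    ops.push (Obj.lift (𝟙 X) φ) X.V.fundCycle, ops.push_mem _ X.V.fundCycle_mem ?_,
    fun W => ?_⟩, rfl⟩
  · rw [dim_prod]; omega
  · apply LinearMap.ext
    intro a
    have e1 : Obj.lift (𝟙 X) φ ≫ snd X X = φ := Obj.lift_snd _ _
    have e2 : Obj.lift (𝟙 X) φ ≫ fst X X = 𝟙 X := Obj.lift_fst _ _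
    rw [W.cl_push, W.cl_fund, corr_apply, ← W.push_mul, ← W.push_comp, ← W.map_comp, e1, e2,
      W.map_id, one_mul]

lemma rop_pow {E : W.H X ≃ₐ[W.K] W.H X} (h : ROp W X 0 E.toLinearMap) (n : ℕ) :
    ROp W X 0 (E ^ n).toLinearMap := by
  induction n with
  | zero =>
    have e : (E ^ 0).toLinearMap = (1 : Module.End W.K (W.H X)) := by
      apply LinearMap.ext
      intro x
      rw [pow_zero]
      rfl
    rw [e]
    exact rop_opAlg.one
  | succ n ih =>
    have e : (E ^ (n + 1)).toLinearMap =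
        (E.toLinearMap : Module.End W.K (W.H X)) * (E ^ n).toLinearMap := by
      apply LinearMap.ext
      intro x
      rw [pow_succ']
      rfl
    rw [e]
    exact rop_mul0 h ih

lemma rop_zpow {E : W.H X ≃ₐ[W.K] W.H X} (h : ROp W X 0 E.toLinearMap)
    (h' : ROp W X 0 (E⁻¹).toLinearMap) (n : ℤ) : ROp W X 0 (E ^ n).toLinearMap := by
  obtain ⟨n, rfl | rfl⟩ := n.eq_nat_or_neg
  · rw [zpow_natCast]
    exact rop_pow h n
  · rw [zpow_neg, zpow_natCast, ← inv_pow]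
    exact rop_pow h' n

lemma zpow_eig {K A : Type*} [Field K] [Ring A] [Algebra K A] {E : A ≃ₐ[K] A} {c : K}
    (hc : c ≠ 0) {x : A} (h : E x = c • x) (n : ℤ) : (E ^ n) x = c ^ n • x := by
  have h1 : ∀ n : ℕ, (E ^ n) x = c ^ n • x := by
    intro n
    induction n with
    | zero => rw [pow_zero, pow_zero, one_smul]; rfl
    | succ n ih =>
      rw [pow_succ', AlgEquiv.mul_apply, ih, map_smul, h, smul_smul, pow_succ]
  obtain ⟨n, rfl | rfl⟩ := n.eq_nat_or_neg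
  · rw [zpow_natCast, zpow_natCast]
    exact h1 n
  · have h2 : (E ^ (-(n : ℤ))) ((E ^ n) x) = x := by
      rw [zpow_neg, zpow_natCast]
      change ((E ^ n)⁻¹ * (E ^ n)) x = x
      rw [inv_mul_cancel]
      rfl
    rw [h1, map_smul] at h2
    rw [zpow_neg c, zpow_natCast, eq_inv_smul_iff₀ (pow_ne_zero _ hc)]
    exact h2

/-- The pull-back by the Frobenius endomorphism as an automorphism. -/
noncomputable def frE (Φ : FrobSystem W p) (X : 𝒱.Obj) (s : ℕ) : W.H X ≃ₐ[W.K] W.H X :=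
  AlgEquiv.ofBijective (W.map (W534.iter (Φ.Fr X) s))
    ⟨map_iter_injective Φ s, map_iter_surjective Φ s⟩

lemma frE_apply (s : ℕ) (x : W.H X) : frE Φ X s x = frob Φ X s x := rfl

lemma rop_frE (s : ℕ) : ROp W X 0 (frE Φ X s).toLinearMap := rop_map _

lemma rop_frE_inv (s : ℕ) : ROp W X 0 ((frE Φ X s)⁻¹).toLinearMap := by
  set δ : ℚ := (p : ℚ) ^ (Φ.e X * s * X.dim) with hδ
  have hδ0 : (δ : W.K) ≠ 0 := by
    rw [hδ]
    push_cast
    exact pow_ne_zero _ (cast_p_ne Φ)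
  have h1 : ∀ a : W.H X, W.push (W534.iter (Φ.Fr X) s) (frE Φ X s a) = (δ : W.K) • a := by
    intro a
    refine push_map ?_ a
    intro c
    rw [tr_iter, hδ]
    push_cast
    rfl
  have h2 : ((frE Φ X s)⁻¹).toLinearMap = ((δ⁻¹ : ℚ) : W.K) • W.push (W534.iter (Φ.Fr X) s) := by
    apply LinearMap.ext
    intro b
    obtain ⟨a, rfl⟩ := (frE Φ X s).surjective b
    have h3 : ((frE Φ X s)⁻¹).toLinearMap (frE Φ X s a) = a := by
      change ((frE Φ X s)⁻¹ * frE Φ X s) a = a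
      rw [inv_mul_cancel]
      rfl
    rw [h3, LinearMap.smul_apply, h1, smul_smul, Rat.cast_inv, inv_mul_cancel₀ hδ0, one_smul]
  rw [h2]
  exact rop_opAlg.smul _ (rop_push _)

lemma isAlgCorr_of {E : W.H X ≃ₐ[W.K] W.H X} (h : ROp W X 0 E.toLinearMap) :
    W552.IsAlgCorr W X E := by
  obtain ⟨z, hz, h1⟩ := cyc_of_rop h
  refine ⟨_, ⟨z, hz, rfl⟩, ?_⟩
  rw [h1]
  rfl

end Group

section Irr

variable {Y : 𝒱.Obj} {I : Type} {σ : W.K →+* ℂ} {P : I → Piece W Y} {m : ℕ} {R : ℤ[X]}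
  {i : I} {D : (P i).obj.Cycles} {M s t b : ℕ}

lemma algSpan_of {X : 𝒱.Obj} {x : W.H X}
    (h : ∀ z, W552.IsAlg W X z → W.tr X (x * z) = 0) : ∀ z ∈ algSpan W X, W.tr X (x * z) = 0 := by
  intro z hz
  refine algSpan_induction (p := fun z => W.tr X (x * z) = 0) ?_ ?_ ?_ ?_ hz
  · rw [mul_zero, map_zero]
  · intro a b ha hb
    rw [mul_add, map_add, ha, hb, add_zero]
  · intro c a ha
    rw [mul_smul_comm, map_smul, ha, smul_zero]
  · intro j z hz
    exact h _ ⟨j, z, hz, rfl⟩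

/-- The eigenvectors in the primitive transcendental cohomology. -/
lemma pt_eig [IsAlgClosed W.K] (H : GSetup Φ σ P m R) (hL : Lvl Φ (P i) D m M s t b)
    (hY : ∀ x : W.H Y, x ∈ algSpan W Y)
    (hE : ∀ x, IsExt p (P i) m x → x ∈ algSpan W (P i).obj) {α : W.K} {j : ℕ}
    {y : W.H (P i).obj} (hy0 : y ≠ 0) (h1 : W552.PT W ⟨(P i).obj, D⟩ j y)
    (h2 : W552.GenEig (W.map (W534.iter (Φ.Fr (P i).obj) s)) α y) :
    ∃ lam x, IsEig p (P i) m lam x ∧ α = lam ^ t ∧ j = (P i).obj.dim ∧ ∃ c : W.K, y = c • x := by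
  have hy : y ∈ Module.End.maxGenEigenspace (frob Φ (P i).obj s) α := by
    rw [Module.End.mem_maxGenEigenspace]
    exact h2
  obtain ⟨h3, h4, -, h5⟩ := h1
  obtain ⟨lam, x, hx, hα, c, hc⟩ := trans_gen H hL hY hE hy hy0 (algSpan_of h5)
  refine ⟨lam, x, hx, hα, ?_, c, hc⟩
  by_contra hne
  apply hy0
  have h6 : y ∈ W.gr (P i).obj (P i).obj.dim := by
    rw [hc]
    exact Submodule.smul_mem _ _ (H.sub_le i hx.mem)
  rw [← proj_same (W.isInternal (P i).obj) h4]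
  exact proj_ne _ h6 (Ne.symm hne)

/-- **The generalised eigenspaces on the primitive transcendental cohomology are irreducible.** -/
theorem irrFrob [IsAlgClosed W.K] (H : GSetup Φ σ P m R) (hL : Lvl Φ (P i) D m M s t b)
    (hY : ∀ x : W.H Y, x ∈ algSpan W Y)
    (hE : ∀ x, IsExt p (P i) m x → x ∈ algSpan W (P i).obj) :
    W552.IrrFrob W ⟨(P i).obj, D⟩ (W534.iter (Φ.Fr (P i).obj) s) (p ^ M) := by
  have hp0 : ((p : ℚ) ^ M) ≠ 0 := pow_ne_zero _ (Nat.cast_ne_zero.2 Φ.p_pos.ne')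
  refine ⟨Multiplicative ℤ, inferInstance, zpowersHom _ (frE Φ (P i).obj s),
    (Units.coeHom ℚ).comp (zpowersHom ℚˣ (Units.mk0 ((p : ℚ) ^ M) hp0)),
    Multiplicative.ofAdd 1, ?_, ⟨?_, ?_, ?_, ?_⟩, ?_⟩
  · intro g
    have e : (((Units.coeHom ℚ).comp (zpowersHom ℚˣ (Units.mk0 ((p : ℚ) ^ M) hp0))) g) =
        ((p : ℚ) ^ M) ^ (Multiplicative.toAdd g) := by
      rw [MonoidHom.comp_apply, zpowersHom_apply, Units.coeHom_apply, Units.val_zpow_eq_zpow_val,
        Units.val_mk0]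
    rw [e, zpowersHom_apply]
    refine ⟨?_, ?_, ?_⟩
    · have : (0 : ℚ) < p := by exact_mod_cast Φ.p_pos
      positivity
    · rw [zpow_eig (c := (p : W.K) ^ M) (pow_ne_zero _ (cast_p_ne Φ)) hL.div]
      push_cast
      rfl
    · exact isAlgCorr_of (rop_zpow (rop_frE s) (rop_frE_inv s) _)
  · intro a
    rw [zpowersHom_apply, toAdd_ofAdd, zpow_one]
    rfl
  · rw [MonoidHom.comp_apply, zpowersHom_apply, Units.coeHom_apply, toAdd_ofAdd, zpow_one,
      Units.val_mk0]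
    push_cast
    rfl
  · intro g
    exact mul_comm _ _
  · have : Subgroup.zpowers (Multiplicative.ofAdd (1 : ℤ)) = ⊤ := by
      rw [Subgroup.eq_top_iff']
      intro g
      rw [Subgroup.mem_zpowers_iff]
      refine ⟨Multiplicative.toAdd g, ?_⟩
      rw [← ofAdd_zsmul, smul_eq_mul, mul_one, ofAdd_toAdd]
    rw [this]
    infer_instance
  · intro j α u hu _
    by_cases h0 : ∃ x, (W552.PT W ⟨(P i).obj, D⟩ j x ∧
        W552.GenEig (W.map (W534.iter (Φ.Fr (P i).obj) s)) α x) ∧ x ≠ 0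
    · obtain ⟨x₀, hx₀, hx0⟩ := h0
      obtain ⟨lam, x, hx, hα, -, c₀, hc₀⟩ := pt_eig H hL hY hE hx0 hx₀.1 hx₀.2
      have hc0 : c₀ ≠ 0 := by
        rintro rfl
        rw [zero_smul] at hc₀
        exact hx0 hc₀
      have key : ∀ y, W552.GenEig (W.map (W534.iter (Φ.Fr (P i).obj) s)) α y →
          ∃ c : W.K, y = c • x₀ := by
        intro y hy
        have hy' : y ∈ Module.End.maxGenEigenspace (frob Φ (P i).obj s) (lam ^ t) := by
          rw [Module.End.mem_maxGenEigenspace, ← hα]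
          exact hy
        obtain ⟨c, hc⟩ := simple_gen H hL hY hE hx y hy'
        refine ⟨c * c₀⁻¹, ?_⟩
        rw [hc, hc₀, smul_smul, mul_assoc, inv_mul_cancel₀ hc0, mul_one]
      obtain ⟨c, hc⟩ := key (u x₀) (hu x₀ hx₀).2
      refine ⟨c, fun y hy => ?_⟩
      obtain ⟨d, hd⟩ := key y hy.2
      rw [hd, map_smul, hc, smul_comm]
    · refine ⟨0, fun y hy => ?_⟩
      have : y = 0 := by
        by_contra hy0
        exact h0 ⟨y, hy, hy0⟩
      rw [this, map_zero, smul_zero]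

end Irr

end Pool.Agent.W290.MF
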