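import Pool.Agent.W458.MF.Geo3
import Pool.Agent.W552.FrobDefs

/-!
# Balanced relations: consequences
-/

open Polynomial

universe u v w

namespace Pool.Agent.W290.MF

open Pool.Agent.W521.Frob Pool.Agent.W458.MF Pool.Agent.W552

section NT

variable {I : Type} {Q : I → ℕ} {h : I → ℤ[X]} {R : ℤ[X]}

/-- no relation with a single root -/
lemma bal_one (hQ : ∀ i, 0 < Q i) (hm : ∀ i, (h i).Monic) (hbal : Balanced Q h R)
    (hsep : ∀ i, ((weil (Q i) (h i)).map (Int.castRingHom ℚ)).Separable) (i : I) {a : ℕ}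
    (ha : 0 < a) {x ν : ℂ} (hx : aeval x (weil (Q i) (h i)) = 0)
    (hν : ν ∈ Submonoid.closure {z : ℂ | aeval z R = 0}) {c : ℕ} (hc : 0 < c)
    (he : x ^ a * ν = (c : ℂ)) : False := by
  classical
  have h1 := hbal [(i, x)] (by
    intro z hz
    simp only [List.mem_cons, List.not_mem_nil, or_false] at hz
    rw [hz]
    exact hx) a ha ν hν c hc (by
      simp only [List.map_cons, List.map_nil, List.prod_cons, List.prod_nil, mul_one]
      exact he) i x
  have h2 : x ≠ (Q i : ℂ) / x := ne_div_of_sep (hQ i) (hm i) (hsep i) hx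
  have h5 : ([(i, x)] : List (I × ℂ)).count (i, (Q i : ℂ) / x) = 0 := by
    rw [List.count_eq_zero]
    simp only [List.mem_cons, List.not_mem_nil, or_false, Prod.mk.injEq, true_and]
    exact fun h => h2 h.symm
  have h6 : 0 < ([(i, x)] : List (I × ℂ)).count (i, x) := by
    rw [List.count_pos_iff]
    exact List.mem_cons_self
  have h7 : ([(i, x)] : List (I × ℂ)).count (i, x) =
      ([(i, x)] : List (I × ℂ)).count (i, (Q i : ℂ) / x) := by
    convert h1
  omega

/-- relations between two roots -/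
lemma bal_two (hQ : ∀ i, 0 < Q i) (hm : ∀ i, (h i).Monic) (hbal : Balanced Q h R)
    (hsep : ∀ i, ((weil (Q i) (h i)).map (Int.castRingHom ℚ)).Separable) (i j : I) {a : ℕ}
    (ha : 0 < a) {x y ν : ℂ} (hx : aeval x (weil (Q i) (h i)) = 0)
    (hy : aeval y (weil (Q j) (h j)) = 0)
    (hν : ν ∈ Submonoid.closure {z : ℂ | aeval z R = 0}) {c : ℕ} (hc : 0 < c)
    (he : x ^ a * y ^ a * ν = (c : ℂ)) : i = j ∧ x * y = Q i := by
  classical
  have h1 := hbal [(i, x), (j, y)] (by
    intro z hz
    simp only [List.mem_cons, List.not_mem_nil, or_false] at hz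
    rcases hz with rfl | rfl
    · exact hx
    · exact hy) a ha ν hν c hc (by
      simp only [List.map_cons, List.map_nil, List.prod_cons, List.prod_nil, mul_one]
      exact he) i x
  have h2 : x ≠ (Q i : ℂ) / x := ne_div_of_sep (hQ i) (hm i) (hsep i) hx
  have h6 : 0 < ([(i, x), (j, y)] : List (I × ℂ)).count (i, x) := by
    rw [List.count_pos_iff]
    exact List.mem_cons_self
  have h7 : ([(i, x), (j, y)] : List (I × ℂ)).count (i, x) =
      ([(i, x), (j, y)] : List (I × ℂ)).count (i, (Q i : ℂ) / x) := by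
    convert h1
  rw [h7, List.count_pos_iff] at h6
  simp only [List.mem_cons, List.not_mem_nil, or_false, Prod.mk.injEq, true_and] at h6
  rcases h6 with h6 | ⟨h6, h8⟩
  · exact absurd h6.symm h2
  · refine ⟨h6, ?_⟩
    rw [← h8, mul_div_cancel₀]
    exact root_ne_zero (hQ i).ne' (hm i) hx

variable {K : Type*} [Field K] [CharZero K]

omit [CharZero K] in
/-- cancellation of relations -/
lemma tateRel_cancel {q : ℕ} (hq : (q : K) ≠ 0) {s s' : Multiset (ℕ × K)}
    (h1 : IsTateRel q (s + s')) (h2 : IsTateRel q s) : IsTateRel q s' := by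
  obtain ⟨j, hj, m, hm, hr⟩ := h1
  obtain ⟨j₁, hj₁, m₁, hm₁, hr₁⟩ := h2
  rw [Multiset.map_add, Multiset.sum_add, hj₁] at hj
  rw [Multiset.map_add, Multiset.prod_add] at hr
  refine ⟨j - j₁, by omega, m * m₁, Nat.one_le_iff_ne_zero.2 (by
    have := Nat.mul_pos (show 0 < m by omega) (show 0 < m₁ by omega)
    omega), ?_⟩
  obtain ⟨r, hr'⟩ : ∃ r, j = j₁ + r := ⟨j - j₁, by omega⟩
  subst hr'
  have h3 : ((s.map Prod.snd).prod ^ m₁) ^ m * ((s'.map Prod.snd).prod ^ (m * m₁)) =
      (q : K) ^ (m * m₁ * (j₁ + r)) := by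
    calc ((s.map Prod.snd).prod ^ m₁) ^ m * ((s'.map Prod.snd).prod ^ (m * m₁))
        = (((s.map Prod.snd).prod * (s'.map Prod.snd).prod) ^ m) ^ m₁ := by
          rw [← pow_mul, ← pow_mul, mul_pow, mul_comm m₁ m]
      _ = (q : K) ^ (m * m₁ * (j₁ + r)) := by
          rw [hr, ← pow_mul]
          congr 1
          ring
  rw [hr₁, ← pow_mul, show m₁ * j₁ * m = m * m₁ * j₁ by ring,
    show m * m₁ * (j₁ + r) = m * m₁ * j₁ + m * m₁ * r by ring, pow_add] at h3
  rw [Nat.add_sub_cancel_left]
  exact mul_left_cancel₀ (pow_ne_zero _ hq) h3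

omit [CharZero K] in
/-- **No exotic relations.** -/
theorem noExotic_of_bal (σ : K →+* ℂ) (hQ : ∀ i, 0 < Q i) (hm : ∀ i, (h i).Monic)
    (hbal : Balanced Q h R)
    (hsep : ∀ i, ((weil (Q i) (h i)).map (Int.castRingHom ℚ)).Separable) {t q : ℕ} (ht : 0 < t)
    (hq : 0 < q) (n : I → ℕ) (hQt : ∀ s, Q s ^ t = q ^ n s) :
    ∀ (N : ℕ) (m : Multiset (ℕ × K)), m.card ≤ N →
      (∀ x ∈ m, IsTateRel q {x} ∨ ∃ s lam, aeval lam (weil (Q s) (h s)) = 0 ∧
        x = (n s, lam ^ t)) → IsTateRel q m → PairGenerated q m := by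
  classical
  have hqK : (q : K) ≠ 0 := by
    intro h0
    have := congrArg σ h0
    rw [map_natCast, map_zero] at this
    exact hq.ne' (by exact_mod_cast this)
  intro N
  induction N with
  | zero =>
    intro m hN _ _
    have : m = 0 := Multiset.card_eq_zero.1 (by omega)
    subst this
    exact PairGenerated.zero
  | succ N ih =>
    intro m hN hx hr
    by_cases h1 : ∃ x ∈ m, IsTateRel q {x}
    · obtain ⟨x, hxm, hxr⟩ := h1
      obtain ⟨m', rfl⟩ := Multiset.exists_cons_of_mem hxm
      refine PairGenerated.single hxr (ih m' ?_ (fun y hy => hx y (Multiset.mem_cons_of_mem hy)) ?_)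
      · rw [Multiset.card_cons] at hN
        omega
      · exact tateRel_cancel (s := {x}) hqK (by rwa [Multiset.singleton_add]) hxr
    · have h2 : ∀ x ∈ m, ∃ s lam, aeval lam (weil (Q s) (h s)) = 0 ∧ x = (n s, lam ^ t) :=
        fun x hxm => (hx x hxm).resolve_left (fun h => h1 ⟨x, hxm, h⟩)
      by_cases h0 : m = 0
      · subst h0
        exact PairGenerated.zero
      obtain ⟨x₀, hx₀⟩ := Multiset.exists_mem_of_ne_zero h0
      have hne : Nonempty I := ⟨(h2 x₀ hx₀).choose⟩
      choose! s lam hroot hlab using h2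
      obtain ⟨j, hj, a, ha, hpr⟩ := hr
      -- the list of labels
      set L : List (I × ℂ) := m.toList.map (fun x => (s x, σ (lam x))) with hL
      have hLr : ∀ x ∈ L, aeval x.2 (weil (Q x.1) (h x.1)) = 0 := by
        intro x hxL
        obtain ⟨y, hy, rfl⟩ := List.mem_map.1 hxL
        exact aeval_sigma σ (hroot y (Multiset.mem_toList.1 hy))
      have hprod : (L.map fun x => x.2 ^ (t * a)).prod * 1 = ((q ^ (a * j) : ℕ) : ℂ) := by
        rw [mul_one, hL, List.map_map]
        have e1 : (m.toList.map ((fun x : I × ℂ => x.2 ^ (t * a)) ∘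
            fun x => (s x, σ (lam x)))) = m.toList.map (fun x => σ (x.2 ^ a)) := by
          refine List.map_congr_left fun x hxm => ?_
          have := hlab x (Multiset.mem_toList.1 hxm)
          have h3 : x.2 = lam x ^ t := congrArg Prod.snd this
          change (σ (lam x)) ^ (t * a) = σ (x.2 ^ a)
          rw [h3, ← pow_mul, map_pow]
        rw [e1]
        have e2 : (m.toList.map (fun x => σ (x.2 ^ a))).prod = σ ((m.map Prod.snd).prod ^ a) := by
          have e3 : (m.map Prod.snd).prod ^ a = (m.map (fun x => x.2 ^ a)).prod := by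
            rw [Multiset.prod_map_pow]
          rw [e3, map_multiset_prod, Multiset.map_map]
          conv_rhs => rw [← Multiset.coe_toList m]
          rw [Multiset.map_coe, Multiset.prod_coe]
          rfl
        rw [e2, hpr, map_pow, map_natCast]
        push_cast
        rfl
      have hB := hbal L hLr (t * a) (Nat.mul_pos ht (by omega)) 1 (Submonoid.one_mem _)
        (q ^ (a * j)) (pow_pos hq _) hprod (s x₀) (σ (lam x₀))
      have hne := ne_div_of_sep (hQ (s x₀)) (hm (s x₀)) (hsep (s x₀))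
        (aeval_sigma σ (hroot x₀ hx₀))
      have h3 : 0 < L.count (s x₀, σ (lam x₀)) := by
        rw [List.count_pos_iff]
        exact List.mem_map.2 ⟨x₀, Multiset.mem_toList.2 hx₀, rfl⟩
      have h4 : 0 < L.count (s x₀, (Q (s x₀) : ℂ) / σ (lam x₀)) := by
        convert h3 using 1
        convert hB.symm
      rw [List.count_pos_iff] at h4
      obtain ⟨y, hy, hyl⟩ := List.mem_map.1 h4
      rw [Multiset.mem_toList] at hy
      have hy1 : s y = s x₀ := congrArg Prod.fst hyl
      have hy2 : σ (lam y) = (Q (s x₀) : ℂ) / σ (lam x₀) := congrArg Prod.snd hyl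
      have hxy : y ≠ x₀ := by
        rintro rfl
        exact hne hy2
      obtain ⟨m₁, rfl⟩ := Multiset.exists_cons_of_mem hx₀
      have hy' : y ∈ m₁ := (Multiset.mem_cons.1 hy).resolve_left hxy
      obtain ⟨m₂, rfl⟩ := Multiset.exists_cons_of_mem hy'
      have hlamK : lam x₀ * lam y = (Q (s x₀) : K) := by
        apply σ.injective
        have h5 : σ (lam x₀) ≠ 0 := root_ne_zero (hQ (s x₀)).ne' (hm (s x₀))
          (aeval_sigma σ (hroot x₀ hx₀))
        rw [map_mul, hy2, mul_div_cancel₀ _ h5, map_natCast]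
      have hpair : IsTateRel (K := K) q {x₀, y} := by
        refine ⟨n (s x₀), ?_, 1, le_rfl, ?_⟩
        · have e1 : x₀.1 = n (s x₀) := congrArg Prod.fst (hlab x₀ hx₀)
          have e2 : y.1 = n (s y) := congrArg Prod.fst (hlab y hy)
          simp only [Multiset.insert_eq_cons, Multiset.map_cons, Multiset.map_singleton,
            Multiset.sum_cons, Multiset.sum_singleton]
          rw [e1, e2, hy1]
          ring
        · have e1 : x₀.2 = lam x₀ ^ t := congrArg Prod.snd (hlab x₀ hx₀)
          have e2 : y.2 = lam y ^ t := congrArg Prod.snd (hlab y hy)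
          simp only [Multiset.insert_eq_cons, Multiset.map_cons, Multiset.map_singleton,
            Multiset.prod_cons, Multiset.prod_singleton, pow_one, one_mul]
          rw [e1, e2, ← mul_pow, hlamK, ← Nat.cast_pow, hQt, Nat.cast_pow]
      refine PairGenerated.pair hpair (ih m₂ ?_
        (fun z hz => hx z (Multiset.mem_cons_of_mem (Multiset.mem_cons_of_mem hz))) ?_)
      · rw [Multiset.card_cons, Multiset.card_cons] at hN
        omega
      · refine tateRel_cancel (s := {x₀, y}) hqK ?_ hpair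
        have e : ({x₀, y} : Multiset (ℕ × K)) + m₂ = x₀ ::ₘ y ::ₘ m₂ := by
          rw [Multiset.insert_eq_cons, Multiset.cons_add, Multiset.singleton_add]
        rw [e]
        exact ⟨j, hj, a, ha, hpr⟩

end NT

end Pool.Agent.W290.MF
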