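import Pool.Agent.W458.MF.Geo6
import Pool.Agent.W458.MF.HStm
import Pool.Agent.W290.MF.Num

/-!
# Common levels, and the eigenvectors in the pieces
-/

open CategoryTheory AlgebraicGeometry Polynomial

universe u v w

namespace Pool.Agent.W290.MF

open Pool.Agent.H914 Pool.Agent.W534 Pool.Agent.W521.Frob VarClass Obj WeilCohomology
  Pool.Agent.H281R3.HT Pool.Agent.W536.RR Pool.Agent.W458.MF

variable {k : Type u} [Field k] {𝒱 : VarClass k} {ops : CycleOps 𝒱}
  {W : WeilCohomology.{u, v} ops} {Y : 𝒱.Obj} {p : ℕ} {Φ : FrobSystem W p}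

/-- A level: over the field with `p ^ M` elements everything is defined. -/
structure Lvl (Φ : FrobSystem W p) (P : Piece W Y) (D : P.obj.Cycles) (m M s t b : ℕ) : Prop where
  s_pos : 0 < s
  t_pos : 0 < t
  even : ∃ t', t = 2 * t'
  tm : t * m = M
  se : Φ.e P.obj * s = M
  eig : ∀ (lam : W.K) (x : W.H P.obj), W.map P.fr x = lam • x → frob Φ P.obj s x = lam ^ t • x
  comm : ∀ y : W.H Y, frob Φ P.obj s (W.map P.mor y) = W.map P.mor (frob Φ Y b y)
  div : frob Φ P.obj s (W.cl P.obj D) = (p : W.K) ^ M • W.cl P.obj D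

lemma exists_lvl {P : Piece W Y} {m : ℕ} (hP : P.IsFrobenius Φ m) {D : P.obj.Cycles}
    (hD : P.obj.IsCyc 1 D) : ∃ N, 0 < N ∧ ∀ r, 0 < r → ∃ s t b, Lvl Φ P D m (N * r) s t b := by
  obtain ⟨a₀, b₀, ha₀, hb₀, hab₀, h₀⟩ := hP
  obtain ⟨a, b, ha, hb, hab, h⟩ := frob_comm Φ P.mor
  obtain ⟨c, hc, h'⟩ := Φ.cyc hD
  have he := Φ.e_pos P.obj
  refine ⟨2 * b₀ * a * c * Φ.e P.obj, by positivity, fun r hr => ?_⟩
  refine ⟨2 * b₀ * a * c * r, a₀ * (2 * a * c * r), b * (2 * b₀ * c * r), ?_, ?_, ?_, ?_, ?_, ?_,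
    ?_, ?_⟩
  · positivity
  · positivity
  · exact ⟨a₀ * (a * c * r), by ring⟩
  · calc a₀ * (2 * a * c * r) * m = (a₀ * m) * (2 * a * c * r) := by ring
      _ = _ := by rw [hab₀]; ring
  · ring
  · intro lam x hx
    have h1 : frob Φ P.obj b₀ x = lam ^ a₀ • x := by
      rw [frob_apply, ← h₀, W534.map_iter]
      exact W534.iterate_eig (fun a x => map_smul _ a x) hx a₀
    rw [show 2 * b₀ * a * c * r = b₀ * (2 * a * c * r) by ring, frob_mul_eq,
      Module.End.pow_apply, pow_mul]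
    exact W534.iterate_eig (fun a x => map_smul (frob Φ P.obj b₀) a x) h1 _
  · intro y
    have := h (2 * b₀ * c * r) y
    rw [show 2 * b₀ * a * c * r = a * (2 * b₀ * c * r) by ring]
    exact this
  · have h2 := frob_mul Φ h' (2 * b₀ * a * r)
    rw [frob_apply, show 2 * b₀ * a * c * r = c * (2 * b₀ * a * r) by ring, h2]
    congr 2
    ring

lemma exists_common {I : Type} [Finite I] {P : I → Piece W Y} {m : ℕ}
    (hP : ∀ i, (P i).IsFrobenius Φ m) {D : ∀ i, (P i).obj.Cycles}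
    (hD : ∀ i, (P i).obj.IsCyc 1 (D i)) : ∃ M, 0 < M ∧ ∀ i, ∃ s t b, Lvl Φ (P i) (D i) m M s t b := by
  classical
  have h1 := fun i => exists_lvl (hP i) (hD i)
  choose N hN h2 using h1
  cases nonempty_fintype I
  refine ⟨∏ i, N i, Finset.prod_pos fun i _ => hN i, fun i => ?_⟩
  rw [← Finset.mul_prod_erase Finset.univ N (Finset.mem_univ i)]
  exact h2 i _ (Finset.prod_pos fun j _ => hN j)

section Eig

variable {I : Type} {σ : W.K →+* ℂ} {P : I → Piece W Y} {m : ℕ} {R : ℤ[X]}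

lemma Q_pos (H : GSetup Φ σ P m R) (i : I) : 0 < (P i).Q p m :=
  pow_pos (by have := H.hp; omega) _

/-- The algebraic generalised eigenvectors with eigenvalues in the monoid of the roots. -/
def ASet (Φ : FrobSystem W p) (σ : W.K →+* ℂ) (R : ℤ[X]) (X : 𝒱.Obj) (s : ℕ) : Set (W.H X) :=
  {z | z ∈ algSpan W X ∧ ∃ ν : W.K, z ∈ Module.End.maxGenEigenspace (frob Φ X s) ν ∧
    σ ν ∈ Submonoid.closure {z : ℂ | aeval z R = 0}}

variable {i : I} {D : (P i).obj.Cycles} {M s t b : ℕ}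

/-- The cohomology is spanned by algebraic generalised eigenvectors and eigenvectors. -/
lemma span_all [IsAlgClosed W.K] (H : GSetup Φ σ P m R) (hL : Lvl Φ (P i) D m M s t b)
    (hY : ∀ x : W.H Y, x ∈ algSpan W Y)
    (hE : ∀ x, IsExt p (P i) m x → x ∈ algSpan W (P i).obj) (y : W.H (P i).obj) :
    y ∈ Submodule.span W.K
      (ASet Φ σ R (P i).obj s ∪ {z | ∃ lam, IsEig p (P i) m lam z}) := by
  obtain ⟨w, hw⟩ := H.gen i y
  have h1 : y = W.map (P i).mor w + (y - W.map (P i).mor w) := by abel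
  rw [h1]
  refine Submodule.add_mem _ ?_ ?_
  · have h2 := Submodule.apply_mem_span_image_of_mem_span (W.map (P i).mor).toLinearMap
      (span_gen_top (frob Φ Y b) w)
    refine Submodule.span_le.2 ?_ h2
    rintro _ ⟨w', ⟨ν, hν⟩, rfl⟩
    by_cases h0 : W.map (P i).mor w' = 0
    · change W.map (P i).mor w' ∈ _
      rw [h0]
      exact Submodule.zero_mem _
    · refine Submodule.subset_span (Or.inl ⟨algSpan_map _ (hY w'), 1 * ν, ?_, ?_⟩)
      · refine gen_map (θ := (W.map (P i).mor).toLinearMap) (c := 1) ?_ hν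
        intro y
        rw [one_smul]
        exact hL.comm y
      · rw [one_mul]
        have hw0 : w' ≠ 0 := by
          rintro rfl
          exact h0 (map_zero _)
        exact eig_Y σ H.hR b (hasEigenvalue_of_gen hν hw0)
  · refine Submodule.span_mono ?_ (H.span i _ hw)
    rintro z (hz | hz)
    · exact Or.inr hz
    · refine Or.inl ⟨hE z hz, ?_⟩
      obtain ⟨-, n, -, hz2⟩ := hz
      obtain ⟨t', ht'⟩ := hL.even
      refine ⟨(p : W.K) ^ (n * m * t), ?_, ?_⟩
      · apply eig_mem_gen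
        rcases hz2 with hz2 | hz2
        · rw [hL.eig _ _ hz2, ← pow_mul]
        · rw [hL.eig _ _ hz2, ht', neg_pow, ← pow_mul, pow_mul (-1 : W.K), neg_one_sq, one_pow,
            one_mul]
      · rw [map_pow, map_natCast]
        refine Submonoid.pow_mem _ (Submonoid.subset_closure ?_) _
        exact H.hRp

/-- The generalised eigenspace for the eigenvalue of an eigenvector. -/
lemma simple_gen [IsAlgClosed W.K] (H : GSetup Φ σ P m R) (hL : Lvl Φ (P i) D m M s t b)
    (hY : ∀ x : W.H Y, x ∈ algSpan W Y)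
    (hE : ∀ x, IsExt p (P i) m x → x ∈ algSpan W (P i).obj) {lam : W.K} {x : W.H (P i).obj}
    (hx : IsEig p (P i) m lam x) (y : W.H (P i).obj)
    (hy : y ∈ Module.End.maxGenEigenspace (frob Φ (P i).obj s) (lam ^ t)) :
    ∃ c : W.K, y = c • x := by
  have hroot := fun {mu : W.K} {z : W.H (P i).obj} (hz : IsEig p (P i) m mu z) =>
    aeval_sigma σ hz.root
  have h3 := mem_span_gen (fun z hz => by
    rcases hz with ⟨-, ν, hν, -⟩ | ⟨mu, hz⟩
    · exact ⟨ν, hν⟩
    · exact ⟨mu ^ t, eig_mem_gen (hL.eig _ _ hz.eig)⟩) (span_all H hL hY hE y) hy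
  have h4 : Submodule.span W.K {v | v ∈ ASet Φ σ R (P i).obj s ∪
      {z | ∃ lam, IsEig p (P i) m lam z} ∧
      v ∈ Module.End.maxGenEigenspace (frob Φ (P i).obj s) (lam ^ t)} ≤
      Submodule.span W.K {x} := by
    rw [Submodule.span_le]
    rintro z ⟨⟨-, ν, hν, hνR⟩ | ⟨mu, hz⟩, hz2⟩
    · by_cases h0 : z = 0
      · rw [h0]
        exact Submodule.zero_mem _
      · exfalso
        have h6 := eq_of_mem_gen hν hz2 h0
        refine sep_fixed (Q_pos H) H.monic H.bal H.sep i hL.t_pos (hroot hx) hνR ?_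
        rw [h6, map_pow]
    · have h6 := eq_of_mem_gen (eig_mem_gen (hL.eig _ _ hz.eig)) hz2 hz.ne
      have h7 : σ mu = σ lam := by
        refine sep_roots (Q_pos H) H.monic H.bal H.sep i hL.t_pos (hroot hz) (hroot hx) ?_
        rw [← map_pow, h6, map_pow]
      have h8 : mu = lam := σ.injective h7
      subst h8
      obtain ⟨c, hc⟩ := H.uniq i mu x z hx hz
      exact Submodule.mem_span_singleton.2 ⟨c, hc.symm⟩
  obtain ⟨c, hc⟩ := Submodule.mem_span_singleton.1 (h4 h3)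
  exact ⟨c, hc.symm⟩

/-- The trace of a generalised eigenvector. -/
lemma tr_gen {X : 𝒱.Obj} {s : ℕ} {μ : W.K} {w : W.H X}
    (hw : w ∈ Module.End.maxGenEigenspace (frob Φ X s) μ) (h0 : W.tr X w ≠ 0) :
    μ = (p : W.K) ^ (Φ.e X * s * X.dim) := by
  have h1 := gen_map (T' := ((p : W.K) ^ (Φ.e X * s * X.dim)) • (1 : Module.End W.K W.K))
    (θ := W.tr X) (c := 1) (T := frob Φ X s) (ν := μ) (by
      intro x
      rw [one_smul, frob_apply, tr_iter, LinearMap.smul_apply, Module.End.one_apply, smul_eq_mul])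
    hw
  rw [one_mul] at h1
  refine eq_of_mem_gen h1 (eig_mem_gen ?_) h0
  rw [LinearMap.smul_apply, Module.End.one_apply]

/-- Two cases for generalised eigenvectors. -/
lemma cases_gen [IsAlgClosed W.K] (H : GSetup Φ σ P m R) (hL : Lvl Φ (P i) D m M s t b)
    (hY : ∀ x : W.H Y, x ∈ algSpan W Y)
    (hE : ∀ x, IsExt p (P i) m x → x ∈ algSpan W (P i).obj) {α : W.K} {y : W.H (P i).obj}
    (hy : y ∈ Module.End.maxGenEigenspace (frob Φ (P i).obj s) α) (hy0 : y ≠ 0) :
    (∃ lam x, IsEig p (P i) m lam x ∧ α = lam ^ t ∧ ∃ c : W.K, y = c • x) ∨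
    (y ∈ algSpan W (P i).obj ∧ σ α ∈ Submonoid.closure {z : ℂ | aeval z R = 0}) := by
  by_cases h : ∃ lam x, IsEig p (P i) m lam x ∧ α = lam ^ t
  · obtain ⟨lam, x, hx, rfl⟩ := h
    exact Or.inl ⟨lam, x, hx, rfl, simple_gen H hL hY hE hx y hy⟩
  · right
    have h3 := mem_span_gen (fun z hz => by
      rcases hz with ⟨-, ν, hν, -⟩ | ⟨mu, hz⟩
      · exact ⟨ν, hν⟩
      · exact ⟨mu ^ t, eig_mem_gen (hL.eig _ _ hz.eig)⟩) (span_all H hL hY hE y) hy
    constructor
    · refine Submodule.span_le.2 ?_ h3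
      rintro z ⟨⟨hz, -⟩ | ⟨mu, hz⟩, hz2⟩
      · exact hz
      · exfalso
        exact h ⟨mu, z, hz, (eq_of_mem_gen (eig_mem_gen (hL.eig _ _ hz.eig)) hz2 hz.ne).symm⟩
    · by_contra hcon
      apply hy0
      have h4 : Submodule.span W.K {v | v ∈ ASet Φ σ R (P i).obj s ∪
          {z | ∃ lam, IsEig p (P i) m lam z} ∧
          v ∈ Module.End.maxGenEigenspace (frob Φ (P i).obj s) α} = ⊥ := by
        rw [Submodule.span_eq_bot]
        rintro z ⟨⟨-, ν, hν, hνR⟩ | ⟨mu, hz⟩, hz2⟩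
        · by_contra h0
          have h6 := eq_of_mem_gen hν hz2 h0
          subst h6
          exact hcon hνR
        · exfalso
          exact h ⟨mu, z, hz, (eq_of_mem_gen (eig_mem_gen (hL.eig _ _ hz.eig)) hz2 hz.ne).symm⟩
      rw [h4, Submodule.mem_bot] at h3
      exact h3

/-- Generalised eigenvectors orthogonal to the algebraic classes. -/
lemma trans_gen [IsAlgClosed W.K] (H : GSetup Φ σ P m R) (hL : Lvl Φ (P i) D m M s t b)
    (hY : ∀ x : W.H Y, x ∈ algSpan W Y)
    (hE : ∀ x, IsExt p (P i) m x → x ∈ algSpan W (P i).obj) {α : W.K} {y : W.H (P i).obj}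
    (hy : y ∈ Module.End.maxGenEigenspace (frob Φ (P i).obj s) α) (hy0 : y ≠ 0)
    (hyt : ∀ z ∈ algSpan W (P i).obj, W.tr (P i).obj (y * z) = 0) :
    ∃ lam x, IsEig p (P i) m lam x ∧ α = lam ^ t ∧ ∃ c : W.K, y = c • x := by
  rcases cases_gen H hL hY hE hy hy0 with h | ⟨-, hα⟩
  · exact h
  · exfalso
    apply hy0
    apply W.nondeg
    intro z
    have hz := span_all H hL hY hE z
    induction hz using Submodule.span_induction with
    | zero => rw [mul_zero, map_zero]
    | add a b _ _ ha hb => rw [mul_add, map_add, ha, hb, add_zero]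
    | smul c a _ ha => rw [mul_smul_comm, map_smul, ha, smul_zero]
    | mem z hz =>
      rcases hz with ⟨hz, -⟩ | ⟨mu, hz⟩
      · exact hyt z hz
      · by_contra h0
        have h1 : y * z ∈ Module.End.maxGenEigenspace (frob Φ (P i).obj s) (α * mu ^ t) :=
          gen_mul (LinearMap.mul W.K (W.H (P i).obj))
            (fun a b => frob_mul_apply Φ s a b) hy (eig_mem_gen (hL.eig _ _ hz.eig))
        have h2 := tr_gen h1 h0
        refine bal_one (Q_pos H) H.monic H.bal H.sep i hL.t_pos (aeval_sigma σ hz.root) hα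
          (c := p ^ (Φ.e (P i).obj * s * (P i).obj.dim)) (pow_pos (by have := H.hp; omega) _) ?_
        rw [← map_pow, ← map_mul, mul_comm, h2, map_pow, map_natCast, Nat.cast_pow]

end Eig

end Pool.Agent.W290.MF
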